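import Pool.Agent.Helper94.LD5.COR1
import Pool.Agent.Helper5.LD5.SQ1
import Pool.Agent.Helper68.LD5.FPA
import Pool.Agent.Helper31.LD5.NRE
import Pool.Agent.Helper31.LD5.TPA

/-!
# Project LD5, block PAIR_PL: a power against a multiple of a power of a base
-/

set_option autoImplicit false

namespace Pool.Agent.Helper89.LD5

open Set MeasureTheory Filter Topology
open Pool.Agent.Helper41.LD (av var haar DiscLe Dioph Kk)
open Pool.Agent.Helper41.LD2 (EqA)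
open Pool.Agent.Helper41.LD3 (Cst Us tm fr lamG)
open Pool.Agent.Helper41.LD4 Pool.Agent.Helper41.LD5
open Pool.Agent.Helper68.LD5 (fp_pos fp_mono fp_near pwf_deriv pwf_meas pwf_lin)
open Pool.Agent.Helper94.LD5 (corr_near5 corr_far5_of)

section

variable {F : Fam} {κ D K : ℕ} {a₀ ℓst a ℓ : ℝ} {N₀ N₀' m₁ m₂ : ℕ} {w w' : ℝ} {f f' : ℝ → ℝ}

/-- a linear function -/
theorem cv_linear {T : ℝ} (hT : 0 < T) (d p q : ℝ) : Cv (fun x => T * x + d) (fun _ => T) p q where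
  meas := (measurable_const_mul T).add_const d
  der x _ := by simpa using ((hasDerivAt_id x).const_mul T).add_const d
  pos _ _ := hT
  mono := monotoneOn_const

/-- a power -/
theorem cv_power (hF : F.Ok) {m : ℕ} (hm : 2 * F.P ≤ m) {p q : ℝ} (hp : 0 < p) : Cv (pwf F.A₀ F.cp F.P m) (fp F.A₀ F.P m) p q where
  meas := pwf_meas _ _ _ _
  der x hx := pwf_deriv _ (hp.trans_le hx.1)
  pos x hx := fp_pos hF.hA hF.hP (by have := hF.hP; omega) (hp.trans_le hx.1)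
  mono x hx y _ hxy := fp_mono hF.hA hF.hP (by omega) (hp.trans_le hx.1) hxy

/-- PAIR_PL: a power against a multiple of a power of a base; one of them is the test -/
theorem pair_pl (hF : F.Ok) (hκ : 1 ≤ κ) (B : F.Big κ D K) (S : F.St κ D K a₀ ℓst) (hℓ : 0 < ℓ) (h1 : a₀ ≤ a) (h2 : a + ℓ ≤ a₀ + ℓst)
    (hlow : (2 : ℝ) ^ (K ^ (2 * κ + 1)) ≤ ℓ * 2 ^ (2 ^ (2 * K) * (F.Cx + 1) + F.Cx)) {Q₀ : ℕ} (hQ : 2 ^ ((D + 40) * K) ≤ Q₀)
    (hf : Fn N₀ m₁ w f) (hf' : Fn N₀' m₂ w' f') (hm₁ : m₁ ≤ F.m) (hm₂ : m₂ ≤ F.m) (hw0 : 0 ≤ w) (hw : w ≤ F.m) (hw'0 : 0 ≤ w') (hw' : w' ≤ F.m)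
    (hN : 1 ≤ N₀) (hN' : 1 ≤ N₀') (hN2 : N₀ ≤ F.m * 2 ^ K) (hN2' : N₀' ≤ F.m * 2 ^ K) {m h u : ℕ} (hm : 2 * F.P ≤ m) (hh : h < F.g)
    (htest : (((Q₀ : ℝ) + 1) * 2 ^ (24 * K) ≤ fp F.A₀ F.P m a * ℓ ∧ fp F.A₀ F.P m a * ℓ ≤ 2 * (1 / 2) ^ (12 * K) * 2 ^ (K ^ (2 * κ + 1))) ∨
      (((Q₀ : ℝ) + 1) * 2 ^ (24 * K) ≤ F.τ5 h ^ u * ℓ ∧ F.τ5 h ^ u * ℓ ≤ 2 * (1 / 2) ^ (12 * K) * 2 ^ (K ^ (2 * κ + 1)))) (d : ℝ) :
    |av (fun x => f (pwf F.A₀ F.cp F.P m x) * f' (F.τ5 h ^ u * x + d)) a ℓ| ≤ 6 * (F.m : ℝ) ^ 2 * (1 / 2) ^ (12 * K) := by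
  have hP := hF.hP
  have hK := B.hK
  have hx1 := hF.h1
  have hm1 : 1 ≤ F.m := by have := hF.m12; omega
  have hxa : F.x₁ ≤ a := S.lo.trans h1
  have ha0 : 0 < a := by linarith
  have ha1 : 1 ≤ a := by linarith
  have hℓst : ℓ ≤ ℓst := by linarith
  have haI : a ∈ Icc a₀ (a₀ + ℓst) := ⟨h1, by linarith⟩
  have hsm : ℓ * 2 ^ (K ^ (2 * κ + 2)) ≤ 1 :=
    (mul_le_mul_of_nonneg_right hℓst (by positivity)).trans S.sm
  set V : ℝ := fp F.A₀ F.P m a with hV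
  set T : ℝ := F.τ5 h ^ u with hT
  have hV0 : 0 < V := fp_pos hF.hA hP (by omega) ha0
  have hτ1 : 1 < F.τ5 h := hF.H.base.hτ h (by omega)
  have hT0 : 0 < T := pow_pos (by linarith) _
  set W : ℝ := (1 / 2) ^ (12 * K) with hW
  have hW0 : 0 < W := by positivity
  have hW1 : W ≤ 1 := pow_le_one₀ (by norm_num) (by norm_num)
  have hWZ : W * 2 ^ (12 * K) = 1 := by
    rw [hW, ← mul_pow]
    norm_num
  have hZ0 : (0 : ℝ) < 2 ^ (12 * K) := by positivity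
  have hZ1 : (1 : ℝ) ≤ 2 ^ (12 * K) := one_le_pow₀ (by norm_num)
  have h24 : (2 : ℝ) ^ (24 * K) = 2 ^ (12 * K) * 2 ^ (12 * K) := by rw [← pow_add]; congr 1; ring
  have hQ0 : (0 : ℝ) ≤ Q₀ := Nat.cast_nonneg _
  set Λ := K ^ (2 * κ + 1) with hΛ
  have hΛ0 : (0 : ℝ) < 2 ^ Λ := by positivity
  -- a bound for the sizes
  have hsize : ∀ y : ℝ, y * ℓ ≤ 2 * 2 ^ Λ → y ≤ 2 ^ (2 ^ (2 * K) * (2 * F.Cx + 2)) := by
    intro y hy
    have h3 : y * ℓ ≤ 2 * (ℓ * 2 ^ (2 ^ (2 * K) * (F.Cx + 1) + F.Cx)) := hy.trans (by linarith)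
    have h4 : y ≤ 2 * 2 ^ (2 ^ (2 * K) * (F.Cx + 1) + F.Cx) := by
      by_contra hcon
      push Not at hcon
      have := mul_lt_mul_of_pos_right hcon hℓ
      linarith
    refine h4.trans ?_
    rw [← pow_succ']
    refine pow_le_pow_right₀ (by norm_num) ?_
    have h5 : 1 ≤ 2 ^ (2 * K) := Nat.one_le_two_pow
    calc 2 ^ (2 * K) * (F.Cx + 1) + F.Cx + 1 = 2 ^ (2 * K) * (F.Cx + 1) + 1 * (F.Cx + 1) := by ring
      _ ≤ 2 ^ (2 * K) * (F.Cx + 1) + 2 ^ (2 * K) * (F.Cx + 1) := by gcongr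
      _ = _ := by ring
  have hexm : V * ℓ ≤ 2 * 2 ^ Λ → m ≤ 2 ^ (3 * K) := fun h3 => exp_bound hF B hxa (by omega) (hsize V h3)
  have hexu : T * ℓ ≤ 2 * 2 ^ Λ → u ≤ 2 ^ (3 * K) := fun h3 => exp_bound' hF B hh (hsize T h3)
  have htop : 2 * W * 2 ^ Λ ≤ 2 * 2 ^ Λ := by
    have := mul_le_mul_of_nonneg_right hW1 hΛ0.le
    linarith
  have hcvp : Cv (pwf F.A₀ F.cp F.P m) (fp F.A₀ F.P m) a (a + ℓ) := cv_power hF hm ha0
  have hcvl : Cv (fun x => T * x + d) (fun _ => T) a (a + ℓ) := cv_linear hT0 d _ _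
  -- both are large
  have hbig : ∀ y z : ℝ, ((Q₀ : ℝ) + 1) * 2 ^ (24 * K) ≤ y * ℓ → y ≤ z → (2 : ℝ) ^ (12 * K) ≤ z * ℓ := by
    intro y z h3 h4
    have h5 : y * ℓ ≤ z * ℓ := mul_le_mul_of_nonneg_right h4 hℓ.le
    have h6 : (2 : ℝ) ^ (12 * K) * 1 ≤ 2 ^ (12 * K) * 2 ^ (12 * K) := mul_le_mul_of_nonneg_left hZ1 hZ0.le
    have h7 : (0 : ℝ) ≤ Q₀ * 2 ^ (24 * K) := by positivity
    rw [h24] at h3 h7
    nlinarith
  have hlarge : ∀ y z : ℝ, ((Q₀ : ℝ) + 1) * 2 ^ (24 * K) ≤ y * ℓ → W * y ≤ z → ((Q₀ : ℝ) + 1) * 2 ^ (12 * K) ≤ z * ℓ := by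
    intro y z h3 h4
    have h5 : W * (y * ℓ) ≤ z * ℓ := by
      have := mul_le_mul_of_nonneg_right h4 hℓ.le
      linarith
    have h6 : W * (((Q₀ : ℝ) + 1) * 2 ^ (24 * K)) = ((Q₀ : ℝ) + 1) * 2 ^ (12 * K) := by
      rw [h24]
      calc W * (((Q₀ : ℝ) + 1) * (2 ^ (12 * K) * 2 ^ (12 * K))) = (W * 2 ^ (12 * K)) * (((Q₀ : ℝ) + 1) * 2 ^ (12 * K)) := by ring
        _ = _ := by rw [hWZ, one_mul]
    have h7 := mul_le_mul_of_nonneg_left h3 hW0.le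
    linarith
  -- a quotient bound in the other direction
  have hup : ∀ y z : ℝ, y * ℓ ≤ 2 * W * 2 ^ Λ → W * z ≤ y → z * ℓ ≤ 2 * 2 ^ Λ := by
    intro y z h3 h4
    have h5 : W * (z * ℓ) ≤ W * (2 * 2 ^ Λ) := by
      have := mul_le_mul_of_nonneg_right h4 hℓ.le
      linarith
    exact le_of_mul_le_mul_left h5 hW0
  rcases le_or_gt V (W * T) with hfar | hVT
  · -- the power is slow
    have hVT' : V ≤ T := hfar.trans (by nlinarith)
    have hVℓ : V * ℓ ≤ 2 * 2 ^ Λ := by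
      rcases htest with ht | ht
      · exact ht.2.trans htop
      · exact (mul_le_mul_of_nonneg_right hVT' hℓ.le).trans (ht.2.trans htop)
    have hmK := hexm hVℓ
    have hnear : fp F.A₀ F.P m (a + ℓ) ≤ 2 * V := by
      have hK1 : 4 * K + 1 ≤ K ^ (2 * κ + 2) := by
        have h3 : K ^ 2 ≤ K ^ (2 * κ + 2) := Nat.pow_le_pow_right (by omega) (by omega)
        nlinarith
      have h3 : ℓ * 2 ^ (4 * K + 1) ≤ 1 :=
        (mul_le_mul_of_nonneg_left (pow_le_pow_right₀ (by norm_num) hK1) hℓ.le).trans hsm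
      have h4 := fp_near hF.hA hP (by omega : F.P ≤ m) hmK ha1 (by linarith : a ≤ a + ℓ) le_rfl h3
      refine h4.trans ?_
      have h5 : (2 : ℝ) ^ (3 * K + 1) * ℓ ≤ 1 := by
        rw [mul_comm]
        exact (mul_le_mul_of_nonneg_left (pow_le_pow_right₀ (by norm_num) (by omega)) hℓ.le).trans h3
      nlinarith
    have hTℓ : (2 : ℝ) ^ (12 * K) ≤ T * ℓ := by
      rcases htest with ht | ht
      · exact hbig V T ht.1 hVT'
      · exact hbig T T ht.1 le_rfl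
    exact corr_far5_of Pool.Agent.Helper5.LD5.cv_int Pool.Agent.Helper5.LD5.cv_far hm1 hf hf' hm₁ hw'0 hw' hcvp hcvl hℓ hnear hfar hTℓ
  rcases le_or_gt T (W * V) with hfar' | hTV
  · -- the linear function is slow
    have hTV' : T ≤ V := hfar'.trans (by nlinarith)
    have hVℓ : (2 : ℝ) ^ (12 * K) ≤ V * ℓ := by
      rcases htest with ht | ht
      · exact hbig V V ht.1 le_rfl
      · exact hbig T V ht.1 hTV'
    have h3 := corr_far5_of Pool.Agent.Helper5.LD5.cv_int Pool.Agent.Helper5.LD5.cv_far (K := K) hm1 hf' hf hm₂ hw0 hw hcvl hcvp hℓ (by linarith) hfar' hVℓ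
    have h4 : (fun x => f (pwf F.A₀ F.cp F.P m x) * f' (T * x + d)) = fun x => f' (T * x + d) * f (pwf F.A₀ F.cp F.P m x) := by
      funext x
      ring
    rw [h4]
    exact h3
  -- near
  have hVℓ : V * ℓ ≤ 2 * 2 ^ Λ := by
    rcases htest with ht | ht
    · exact ht.2.trans htop
    · exact hup T V ht.2 hTV.le
  have hTℓ : T * ℓ ≤ 2 * 2 ^ Λ := by
    rcases htest with ht | ht
    · exact hup V T ht.2 hVT.le
    · exact ht.2.trans htop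
  have hmK := hexm hVℓ
  have huK := hexu hTℓ
  have hlin := pwf_lin hF hκ hK (by omega : F.P ≤ m) hmK hxa hℓ hsm (hVℓ.trans (by
    rw [← pow_succ']
    exact pow_le_pow_right₀ (by norm_num) (by omega)))
  have hlin' : ∀ x ∈ Icc a (a + ℓ), |(T * x + d) - (T * x + d)| ≤ (1 / 2 : ℝ) ^ (16 * K) := by
    intro x _
    rw [sub_self, abs_zero]
    positivity
  have hnr := (S.nr a haI).2 m hm hmK h hh u huK
  have hquot : ∀ y z : ℝ, 0 < y → W * z < y → z / y ≤ 2 ^ (12 * K + 2) := by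
    intro y z hy h3
    rw [div_le_iff₀ hy]
    have h4 : z < 2 ^ (12 * K) * y := by
      have h5 := mul_lt_mul_of_pos_left h3 hZ0
      have h6 : 2 ^ (12 * K) * (W * z) = z := by rw [← mul_assoc, mul_comm _ W, hWZ, one_mul]
      linarith
    have h5 : (2 : ℝ) ^ (12 * K) * y ≤ 2 ^ (12 * K + 2) * y :=
      mul_le_mul_of_nonneg_right (pow_le_pow_right₀ (by norm_num) (by omega)) hy.le
    linarith
  rcases le_or_gt V T with hle | hlt
  · have hE : EqA (T / V) Q₀ W := NRa_EqA (by omega) (hnr.2 (by rw [one_le_div hV0]; exact hle) (hquot V T hV0 hVT)) hQ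
    have hSℓ : ((Q₀ : ℝ) + 1) * 2 ^ (12 * K) ≤ V * ℓ := by
      rcases htest with ht | ht
      · exact hlarge V V ht.1 (by nlinarith)
      · exact hlarge T V ht.1 hVT.le
    exact corr_near5 hF.m12 hf hf' hm₂ hN hN' hN2 hN2' hW0.le le_rfl hV0 hle hℓ hE hSℓ hcvp.meas hcvl.meas hlin hlin'
  · have hE : EqA (V / T) Q₀ W := NRa_EqA (by omega) (hnr.1 (by rw [one_le_div hT0]; exact hlt.le) (hquot T V hT0 hTV)) hQ
    have hSℓ : ((Q₀ : ℝ) + 1) * 2 ^ (12 * K) ≤ T * ℓ := by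
      rcases htest with ht | ht
      · exact hlarge V T ht.1 hTV.le
      · exact hlarge T T ht.1 (by nlinarith)
    have h3 := corr_near5 hF.m12 hf' hf hm₁ hN' hN hN2' hN2 hW0.le le_rfl hT0 hlt.le hℓ hE hSℓ hcvl.meas hcvp.meas hlin' hlin
    have h4 : (fun x => f (pwf F.A₀ F.cp F.P m x) * f' (T * x + d)) = fun x => f' (T * x + d) * f (pwf F.A₀ F.cp F.P m x) := by
      funext x
      ring
    rw [h4]
    exact h3

end

end Pool.Agent.Helper89.LD5
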