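import Pool.Agent.Helper89.LD.Dim

/-!
# Project LD5, block DIMB: dimension outside of exceptional intervals
-/

set_option autoImplicit false

namespace Pool.Agent.Helper89.LD5

open Set MeasureTheory Filter Topology Pool.Agent.Helper78.KD Pool.Agent.Helper18.KD Pool.Agent.Helper89.LD

/-- mass distribution with lengths of general decay, and a set of small measure which is left out -/
theorem mass_dist_bad (T : Tr) (m : ℕ → ℕ → ℝ) (hm0 : m 0 0 = 1) (hm : ∀ k i, i < T.N k → 0 ≤ m k i)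
    (hsum : ∀ k i, i < T.N k → ∑ j ∈ T.ch k i, m (k + 1) j = m k i) (ℓ : ℕ → ℝ) (hℓ : ∀ k, 0 < ℓ k)
    (hlen : ∀ k i, i < T.N k → T.len k i = ℓ k) (hℓt : Tendsto ℓ atTop (𝓝 0)) (q : ℕ → ℝ) (hq : ∀ k, 0 ≤ q k)
    (hmass : ∀ k i, i < T.N k → m k i ≤ q k * ℓ k) {s C : ℝ} (hs : 0 < s) (hs1 : s < 1)
    (hC : ∀ k, q (k + 1) * ℓ k ^ (1 - s) ≤ C) (E : Set ℝ)
    (Z : Set ℝ) (hZ : volume (Ico (0 : ℝ) 1 ∩ Z) < 1)
    (hE : ∀ w : ℝ, 0 ≤ w → w < 1 → w ∉ Z → pt T m w ∈ E) : ENNReal.ofReal s ≤ dimH E := by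
  set C' : ℝ := max C 1 with hC'
  have hC'0 : 0 < C' := lt_of_lt_of_le one_pos (le_max_right _ _)
  have hCC : ∀ k, q (k + 1) * ℓ k ^ (1 - s) ≤ C' := fun k => (hC k).trans (le_max_left _ _)
  set X := pt T m with hX
  have hXm : Measurable X := pt_mono.measurable
  set ν : Measure ℝ := (volume.restrict (Ico (0 : ℝ) 1)).map X with hν
  have hνIcc : ∀ α β : ℝ, ν (Icc α β) = volume (Ico (0 : ℝ) 1 ∩ X ⁻¹' Icc α β) := by
    intro α β
    rw [hν, Measure.map_apply hXm measurableSet_Icc, Measure.restrict_apply (hXm measurableSet_Icc), Set.inter_comm]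
  have hint : ∀ k (α β : ℝ), α ≤ β → ν (Icc α β) ≤ ENNReal.ofReal (q k * ((β - α) + 2 * ℓ k)) := by
    intro k α β h
    rw [hνIcc]
    exact int_le' hm0 hm hsum k (hℓ k).le (hq k) (fun i hi => (hlen k i hi).le)
      (fun i hi => by rw [hlen k i hi]; exact hmass k i hi) h
  -- Frostman bound for intervals
  have hfr : ∀ α β : ℝ, α < β → β - α < ℓ 0 → ν (Icc α β) ≤ ENNReal.ofReal (3 * C' * (β - α) ^ s) := by
    intro α β hαβ hle
    set δ := β - α with hδ
    have hδ0 : 0 < δ := by rw [hδ]; linarith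
    obtain ⟨k, hk1, hk2⟩ : ∃ k, ℓ (k + 1) ≤ δ ∧ δ < ℓ k := by
      classical
      have hex : ∃ k, ℓ k ≤ δ := by
        obtain ⟨k, hk⟩ := (hℓt.eventually (gt_mem_nhds hδ0)).exists
        exact ⟨k, hk.le⟩
      have h1 := Nat.find_spec hex
      have h2 : Nat.find hex ≠ 0 := by
        intro h0
        rw [h0] at h1
        linarith
      obtain ⟨k, hk⟩ := Nat.exists_eq_succ_of_ne_zero h2
      refine ⟨k, by rw [hk] at h1; exact h1, ?_⟩
      have := Nat.find_min hex (show k < Nat.find hex by omega)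
      exact not_le.1 this
    refine (hint (k + 1) α β hαβ.le).trans (ENNReal.ofReal_le_ofReal ?_)
    have h3 : q (k + 1) * (δ + 2 * ℓ (k + 1)) ≤ q (k + 1) * (3 * δ) :=
      mul_le_mul_of_nonneg_left (by linarith) (hq _)
    have h4 : δ ^ (1 - s) ≤ ℓ k ^ (1 - s) := Real.rpow_le_rpow hδ0.le hk2.le (by linarith)
    have h5 : δ = δ ^ s * δ ^ (1 - s) := by
      rw [← Real.rpow_add hδ0]
      simp
    calc q (k + 1) * (δ + 2 * ℓ (k + 1)) ≤ q (k + 1) * (3 * δ) := h3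
      _ = 3 * δ ^ s * (q (k + 1) * δ ^ (1 - s)) := by
          conv_lhs => rw [h5]
          ring
      _ ≤ 3 * δ ^ s * C' := by
          refine mul_le_mul_of_nonneg_left ?_ (by positivity)
          exact (mul_le_mul_of_nonneg_left h4 (hq _)).trans (hCC k)
      _ = 3 * C' * δ ^ s := by ring
  -- points
  have hpt : ∀ x : ℝ, ν {x} = 0 := by
    intro x
    have h1 : ∀ r : ℝ, 0 < r → r < ℓ 0 → ν {x} ≤ ENNReal.ofReal (3 * C' * r ^ s) := by
      intro r hr hr0
      have h2 := hfr x (x + r) (by linarith) (by linarith)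
      rw [add_sub_cancel_left] at h2
      refine (measure_mono ?_).trans h2
      rw [Set.singleton_subset_iff]
      exact ⟨le_rfl, by linarith⟩
    have h4 : Tendsto (fun r : ℝ => ENNReal.ofReal (3 * C' * r ^ s)) (𝓝[>] 0) (𝓝 0) := by
      have h5 : Tendsto (fun r : ℝ => 3 * C' * r ^ s) (𝓝[>] 0) (𝓝 (3 * C' * 0 ^ s)) := by
        apply Tendsto.mono_left _ nhdsWithin_le_nhds
        exact (((Real.continuous_rpow_const hs.le).tendsto 0).const_mul _)
      rw [Real.zero_rpow hs.ne', mul_zero] at h5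
      rw [← ENNReal.ofReal_zero]
      exact ENNReal.tendsto_ofReal h5
    refine le_antisymm (ge_of_tendsto h4 ?_) zero_le
    filter_upwards [Ioo_mem_nhdsGT (hℓ 0)] with r hr
    exact h1 r hr.1 hr.2
  -- the comparison with the Hausdorff measure
  set c : ENNReal := ENNReal.ofReal (3 * C') with hc
  have hc0 : c ≠ 0 := by
    rw [hc, Ne, ENNReal.ofReal_eq_zero, not_le]
    positivity
  have hct : c ≠ ⊤ := ENNReal.ofReal_ne_top
  have hle : c⁻¹ • ν ≤ Measure.hausdorffMeasure s := by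
    refine Measure.le_hausdorffMeasure _ _ (ENNReal.ofReal (ℓ 0 / 2)) (ENNReal.ofReal_pos.2 (half_pos (hℓ 0))) fun t ht => ?_
    rw [Measure.smul_apply, smul_eq_mul, ENNReal.inv_mul_le_iff hc0 hct]
    rcases t.eq_empty_or_nonempty with he | hne
    · rw [he, measure_empty]
      exact zero_le
    have htop : Metric.ediam t ≠ ⊤ := ne_top_of_le_ne_top ENNReal.ofReal_ne_top ht
    have hbd : Bornology.IsBounded t := Metric.isBounded_iff_ediam_ne_top.2 htop
    obtain ⟨x, hx⟩ := hne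
    have hsub : t ⊆ Icc (sInf t) (sSup t) := fun y hy => ⟨csInf_le hbd.bddBelow hy, le_csSup hbd.bddAbove hy⟩
    have hdiam : Metric.ediam t = ENNReal.ofReal (sSup t - sInf t) := by
      rw [← ENNReal.ofReal_toReal htop]
      congr 1
      exact Real.diam_eq hbd
    have hle2 : sInf t ≤ sSup t := (hsub hx).1.trans (hsub hx).2
    rcases hle2.eq_or_lt with h | h
    · have h1 : t ⊆ {x} := by
        intro y hy
        have h2 := hsub hy
        have h3 := hsub hx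
        rw [Set.mem_singleton_iff]
        rw [← h] at h2 h3
        linarith [h2.1, h2.2, h3.1, h3.2]
      rw [measure_mono_null h1 (hpt x)]
      exact zero_le
    · refine (measure_mono hsub).trans ?_
      have hr : sSup t - sInf t ≤ ℓ 0 / 2 := by
        rw [hdiam] at ht
        exact (ENNReal.ofReal_le_ofReal_iff (half_pos (hℓ 0)).le).1 ht
      refine (hfr _ _ h (by linarith [hℓ 0])).trans (le_of_eq ?_)
      rw [hdiam, hc, ENNReal.ofReal_rpow_of_pos (by linarith), ← ENNReal.ofReal_mul (by positivity)]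
  -- positivity
  have hνE : ν E ≠ 0 := by
    intro h0
    rw [← measure_toMeasurable] at h0
    rw [hν, Measure.map_apply hXm (measurableSet_toMeasurable _ _), Measure.restrict_apply (hXm (measurableSet_toMeasurable _ _))] at h0
    have hsub : Ico (0 : ℝ) 1 ⊆ (X ⁻¹' toMeasurable ν E ∩ Ico (0 : ℝ) 1) ∪ (Ico (0 : ℝ) 1 ∩ Z) := by
      intro w hw
      by_cases hwZ : w ∈ Z
      · exact Or.inr ⟨hw, hwZ⟩
      · exact Or.inl ⟨subset_toMeasurable _ _ (hE w hw.1 hw.2 hwZ), hw⟩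
    have h1 := (measure_mono hsub).trans (measure_union_le (μ := volume) _ _)
    rw [h0, zero_add, Real.volume_Ico, sub_zero, ENNReal.ofReal_one] at h1
    exact absurd hZ (not_lt.2 h1)
  have hH : Measure.hausdorffMeasure s E ≠ 0 := by
    intro h0
    have h1 := hle E
    rw [h0, Measure.smul_apply, smul_eq_mul, nonpos_iff_eq_zero, mul_eq_zero] at h1
    rcases h1 with h1 | h1
    · exact hct (ENNReal.inv_eq_zero.1 h1)
    · exact hνE h1
  have hcoe : ((s.toNNReal : NNReal) : ℝ) = s := Real.coe_toNNReal _ hs.le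
  rw [← hcoe] at hH
  exact le_dimH_of_hausdorffMeasure_ne_zero hH

/-- DIMB: `dim_homog` (Helper89.LD.Dim) with exceptional intervals of total mass at most `1 / 2`. The measure of `dim_homog` gives an interval of
length `r` at most `∏_{j < k} (p j)⁻¹ * (r + 2 ℓ k) / ℓ 0` for every `k`, so the rest has mass at least `1 / 2`. -/
theorem dim_exc (B : ℕ → ℕ) (ℓ : ℕ → ℝ) (p : ℕ → ℝ) (Good : ℕ → ℝ → Prop) (x₀ : ℝ) (hB : ∀ k, 1 ≤ B k) (hℓ0 : 0 < ℓ 0)
    (hℓ : ∀ k, ℓ (k + 1) = ℓ k / B k) (hℓt : Tendsto ℓ atTop (𝓝 0)) (hp : ∀ k, 0 < p k) (hp1 : ∀ k, p k ≤ 1) (h0 : Good 0 x₀)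
    (hstep : ∀ k a, Good k a → p k * (B k : ℝ) ≤ (by classical exact (((Finset.range (B k)).filter fun b : ℕ => Good (k + 1) (a + b * ℓ (k + 1))).card : ℝ)))
    {s : ℝ} (hs : 0 < s) (hs1 : s < 1) (hmass : ∃ C : ℝ, ∀ k, (∏ j ∈ Finset.range (k + 1), (p j)⁻¹) * ℓ k ^ (1 - s) ≤ C)
    (E : ℕ → Finset ℝ) (ρ : ℕ → ℝ) (kk : ℕ → ℕ) (hρ : ∀ σ, 0 ≤ ρ σ)
    (hexc : ∀ n, ∑ σ ∈ Finset.range n, ((E σ).card : ℝ) * ((2 * ρ σ + 2 * ℓ (kk σ)) / ℓ 0 * ∏ j ∈ Finset.range (kk σ), (p j)⁻¹) ≤ 1 / 2) :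
    ENNReal.ofReal s ≤ dimH {x | x ∈ Icc x₀ (x₀ + ℓ 0) ∧ (∀ k, ∃ a, Good k a ∧ x ∈ Icc a (a + ℓ k)) ∧
      ∀ σ, ∀ y ∈ E σ, x ∉ Icc (y - ρ σ) (y + ρ σ)} := by
  classical
  have hstep' : ∀ k a, Good k a → p k * (B k : ℝ) ≤
      (((Finset.range (B k)).filter fun b : ℕ => Good (k + 1) (a + b * ℓ (k + 1))).card : ℝ) := by
    intro k a h
    convert hstep k a h
  have hB0 : ∀ k, (0 : ℝ) < B k := fun k => by exact_mod_cast hB k
  have hpos : ∀ k, 0 < ℓ k := by
    intro k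
    induction k with
    | zero => exact hℓ0
    | succ k ih => rw [hℓ]; exact div_pos ih (hB0 k)
  have hℓ' : ∀ k, ℓ k = ℓ (k + 1) * B k := fun k => by
    rw [hℓ, div_mul_cancel₀ _ (hB0 k).ne']
  -- the chosen children
  set g : ℕ → ℕ := fun k => ⌈p k * B k⌉₊ with hg
  have hg0 : ∀ k, 0 < g k := fun k => Nat.ceil_pos.2 (mul_pos (hp k) (hB0 k))
  have hgB : ∀ k, g k ≤ B k := fun k => Nat.ceil_le.2 (by
    have := mul_le_mul_of_nonneg_right (hp1 k) (hB0 k).le
    linarith)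
  have hgp : ∀ k, p k * B k ≤ g k := fun k => Nat.le_ceil _
  have hsel : ∀ k i : ℕ, ∃ S : Finset ℕ, S ⊆ Finset.range (B k) ∧ S.card = g k ∧
      (Good k (x₀ + i * ℓ k) → ∀ b ∈ S, Good (k + 1) (x₀ + (i * B k + b : ℕ) * ℓ (k + 1))) := by
    intro k i
    by_cases h : Good k (x₀ + i * ℓ k)
    · have h1 : g k ≤ ((Finset.range (B k)).filter fun b : ℕ => Good (k + 1) (x₀ + i * ℓ k + b * ℓ (k + 1))).card :=
        Nat.ceil_le.2 (hstep' k _ h)
      obtain ⟨S, hS1, hS2⟩ := Finset.exists_subset_card_eq h1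
      refine ⟨S, hS1.trans (Finset.filter_subset _ _), hS2, fun _ b hb => ?_⟩
      have h2 := (Finset.mem_filter.1 (hS1 hb)).2
      have h3 : x₀ + ((i * B k + b : ℕ) : ℝ) * ℓ (k + 1) = x₀ + i * ℓ k + b * ℓ (k + 1) := by
        rw [hℓ' k]
        push_cast
        ring
      rwa [h3]
    · exact ⟨Finset.range (g k), Finset.range_subset_range.2 (hgB k), Finset.card_range _, fun h' => absurd h' h⟩
  choose Sel hSub hCard hGood using hsel
  set T : Tr := trU B ℓ x₀ hB hpos hℓ' with hT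
  set m := mU B g Sel with hm
  have hm0 : m 0 0 = 1 := by rw [hm, mU]; simp
  have hmn : ∀ k i, i < T.N k → 0 ≤ m k i := fun k i _ => mU_nonneg B g Sel k i
  have hsum : ∀ k i, i < T.N k → ∑ j ∈ T.ch k i, m (k + 1) j = m k i := fun k i _ =>
    mU_sum B g Sel hg0 hSub hCard k i
  have hlen : ∀ k i, i < T.N k → T.len k i = ℓ k := by
    intro k i _
    show x₀ + ((i + 1 : ℕ) : ℝ) * ℓ k - (x₀ + (i : ℝ) * ℓ k) = ℓ k
    push_cast
    ring
  -- good cells
  have hgood : ∀ k i, 0 < m k i → Good k (x₀ + i * ℓ k) := by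
    intro k
    induction k with
    | zero =>
      intro i hi
      have h1 : i = 0 := by
        by_contra h
        rw [hm, mU, if_neg h] at hi
        exact lt_irrefl _ hi
      rw [h1]
      simpa using h0
    | succ k ih =>
      intro j hj
      rw [hm, mU] at hj
      split_ifs at hj with h
      · have h1 : 0 < mU B g Sel k (j / B k) := by
          rcases (mU_nonneg B g Sel k (j / B k)).eq_or_lt with h2 | h2
          · rw [← h2, zero_div] at hj
            exact absurd hj (lt_irrefl _)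
          · exact h2
        have h2 := hGood k (j / B k) (ih _ h1) _ h
        rw [Nat.div_add_mod'] at h2
        exact h2
      · exact absurd hj (lt_irrefl _)
  -- masses
  set Q : ℕ → ℝ := fun k => ∏ j ∈ Finset.range k, (p j)⁻¹ with hQ
  have hQ0 : ∀ k, 0 < Q k := fun k => Finset.prod_pos fun j _ => inv_pos.2 (hp j)
  have hmassm : ∀ k i, m k i ≤ (Q k / ℓ 0) * ℓ k := by
    intro k
    induction k with
    | zero =>
      intro i
      rw [hm, mU, hQ]
      simp only [Finset.range_zero, Finset.prod_empty]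
      rw [div_mul_cancel₀ _ hℓ0.ne']
      split_ifs <;> norm_num
    | succ k ih =>
      intro j
      rw [hm, mU]
      split_ifs
      · have h1 := ih (j / B k)
        rw [hm] at h1
        have h2 : (0 : ℝ) < g k := by exact_mod_cast hg0 k
        rw [div_le_iff₀ h2]
        have h3 : Q (k + 1) = Q k * (p k)⁻¹ := Finset.prod_range_succ _ _
        calc mU B g Sel k (j / B k) ≤ Q k / ℓ 0 * ℓ k := h1
          _ = Q (k + 1) / ℓ 0 * ℓ (k + 1) * (p k * B k) := by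
              rw [h3, hℓ' k]
              have := (hp k).ne'
              field_simp
          _ ≤ Q (k + 1) / ℓ 0 * ℓ (k + 1) * g k := by
              refine mul_le_mul_of_nonneg_left (hgp k) ?_
              have := hQ0 (k + 1)
              have := hpos (k + 1)
              positivity
      · have := hQ0 (k + 1)
        have := hpos (k + 1)
        positivity
  obtain ⟨C, hC⟩ := hmass
  -- the exceptional intervals
  set Z : Set ℝ := ⋃ σ : ℕ, ⋃ y ∈ E σ, pt T m ⁻¹' Icc (y - ρ σ) (y + ρ σ) with hZ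
  have hZle : volume (Ico (0 : ℝ) 1 ∩ Z) < 1 := by
    have h1 : Ico (0 : ℝ) 1 ∩ Z ⊆ ⋃ σ : ℕ, ⋃ y ∈ E σ, Ico (0 : ℝ) 1 ∩ pt T m ⁻¹' Icc (y - ρ σ) (y + ρ σ) := by
      rintro w ⟨hw, hwZ⟩
      rw [hZ] at hwZ
      simp only [Set.mem_iUnion] at hwZ ⊢
      obtain ⟨σ, y, hy, h⟩ := hwZ
      exact ⟨σ, y, hy, hw, h⟩
    have hc0 : ∀ σ, 0 ≤ (2 * ρ σ + 2 * ℓ (kk σ)) / ℓ 0 * ∏ j ∈ Finset.range (kk σ), (p j)⁻¹ := by
      intro σ
      have h2 := hρ σ
      have h3 := (hpos (kk σ)).le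
      have h4 := (hQ0 (kk σ)).le
      have h5 : (0 : ℝ) ≤ (2 * ρ σ + 2 * ℓ (kk σ)) / ℓ 0 := div_nonneg (by linarith) hℓ0.le
      exact mul_nonneg h5 h4
    have h2 : ∀ σ, volume (⋃ y ∈ E σ, Ico (0 : ℝ) 1 ∩ pt T m ⁻¹' Icc (y - ρ σ) (y + ρ σ)) ≤
        ENNReal.ofReal (((E σ).card : ℝ) * ((2 * ρ σ + 2 * ℓ (kk σ)) / ℓ 0 * ∏ j ∈ Finset.range (kk σ), (p j)⁻¹)) := by
      intro σ
      refine (measure_biUnion_finset_le _ _).trans ?_
      have h3 : ∀ y ∈ E σ, volume (Ico (0 : ℝ) 1 ∩ pt T m ⁻¹' Icc (y - ρ σ) (y + ρ σ)) ≤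
          ENNReal.ofReal ((2 * ρ σ + 2 * ℓ (kk σ)) / ℓ 0 * ∏ j ∈ Finset.range (kk σ), (p j)⁻¹) := by
        intro y _
        have h4 := int_le' (T := T) hm0 hmn hsum (kk σ) (hpos (kk σ)).le (div_pos (hQ0 (kk σ)) hℓ0).le
          (fun i hi => (hlen _ i hi).le) (fun i hi => by rw [hlen _ i hi]; exact hmassm (kk σ) i)
          (α := y - ρ σ) (β := y + ρ σ) (by linarith [hρ σ])
        refine h4.trans (ENNReal.ofReal_le_ofReal (le_of_eq ?_))
        show Q (kk σ) / ℓ 0 * _ = _ * Q (kk σ)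
        ring
      refine (Finset.sum_le_sum h3).trans (le_of_eq ?_)
      rw [Finset.sum_const, nsmul_eq_mul, ENNReal.ofReal_mul (Nat.cast_nonneg _), ENNReal.ofReal_natCast]
    have h5 : ∑' σ, ENNReal.ofReal (((E σ).card : ℝ) * ((2 * ρ σ + 2 * ℓ (kk σ)) / ℓ 0 * ∏ j ∈ Finset.range (kk σ), (p j)⁻¹)) ≤
        ENNReal.ofReal (1 / 2) := by
      refine ENNReal.tsum_le_of_sum_range_le fun n => ?_
      rw [← ENNReal.ofReal_sum_of_nonneg fun σ _ => mul_nonneg (Nat.cast_nonneg _) (hc0 σ)]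
      exact ENNReal.ofReal_le_ofReal (hexc n)
    refine (((measure_mono h1).trans (measure_iUnion_le _)).trans ((ENNReal.tsum_le_tsum h2).trans h5)).trans_lt ?_
    rw [← ENNReal.ofReal_one]
    exact (ENNReal.ofReal_lt_ofReal_iff one_pos).2 (by norm_num)
  refine mass_dist_bad T m hm0 hmn hsum ℓ hpos hlen hℓt (fun k => Q k / ℓ 0) (fun k => (div_pos (hQ0 k) hℓ0).le)
    (fun k i _ => hmassm k i) hs hs1 (C := C / ℓ 0) (fun k => ?_) _ Z hZle fun w hw0 hw1 hwZ => ?_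
  · have h1 := hC k
    calc Q (k + 1) / ℓ 0 * ℓ k ^ (1 - s) = (Q (k + 1) * ℓ k ^ (1 - s)) / ℓ 0 := by ring
      _ ≤ C / ℓ 0 := div_le_div_of_nonneg_right h1 hℓ0.le
  · have hcell : ∀ k, pt T m w ∈ Icc (x₀ + (idx T m k w : ℝ) * ℓ k) (x₀ + (idx T m k w : ℝ) * ℓ k + ℓ k) := by
      intro k
      have h1 := pt_mem hm0 hmn hsum k hw0 hw1
      have h2 : T.cell k (idx T m k w) = Icc (x₀ + (idx T m k w : ℝ) * ℓ k) (x₀ + ((idx T m k w + 1 : ℕ) : ℝ) * ℓ k) := rfl
      rw [h2] at h1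
      refine ⟨h1.1, h1.2.trans (le_of_eq ?_)⟩
      push_cast
      ring
    refine ⟨?_, fun k => ⟨_, hgood k _ (mass_pos hm0 hsum k hw0 hw1), hcell k⟩, fun σ y hy hmem => hwZ ?_⟩
    swap
    · rw [hZ]
      simp only [Set.mem_iUnion]
      exact ⟨σ, y, hy, hmem⟩
    have h1 := hcell 0
    have h2 : idx T m 0 w = 0 := by
      have h3 := idx_lt (T := T) (m := m) 0 w
      have h4 : T.N 0 = 1 := T.hN
      omega
    rw [h2] at h1
    simpa using h1

end Pool.Agent.Helper89.LD5
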